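import Mathlib

/-!
Percolation games with perfect information: strategies, total payoff, `n`-stage value.
-/

set_option autoImplicit false

namespace Pool.Agent.V5helper96.PG

variable {V I J : Type*} [AddCommGroup V]

/-- The total payoff of the next `n` stages, from the state `z`, when `h` is the list of the action
pairs played so far, Player 1 uses `σ` (his action is a function of the past) and Player 2 uses `τ`
(her action is a function of the past and of the present action of Player 1). -/
noncomputable def total (g : V → I → J → ℝ) (q : I → J → V) (σ : List (I × J) → I)
    (τ : List (I × J) → I → J) : ℕ → List (I × J) → V → ℝ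
  | 0, _, _ => 0
  | n + 1, h, z => g z (σ h) (τ h (σ h)) +
      total g q σ τ n (h ++ [(σ h, τ h (σ h))]) (z + q (σ h) (τ h (σ h)))

/-- The `n`-stage value at `z`: the max-min, over strategies, of the average payoff. -/
noncomputable def value (g : V → I → J → ℝ) (q : I → J → V) (n : ℕ) (z : V) : ℝ :=
  ⨆ σ : List (I × J) → I, ⨅ τ : List (I × J) → I → J, total g q σ τ n [] z / n

end Pool.Agent.V5helper96.PG
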