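import Pool.Agent.V5helper96.PG.Main
import Pool.Agent.V5helper96.PG.Defs

/-!
Percolation games with perfect information: strategies, `n`-stage value, and the reduction of the
one-player case to words.
-/

set_option autoImplicit false
set_option linter.unusedSectionVars false

open scoped BigOperators Topology
open MeasureTheory ProbabilityTheory Filter

namespace Pool.Agent.V5helper96.PG

section
variable {V I J : Type*} [AddCommGroup V]

/-- the payoff along a word of action pairs -/
noncomputable def along (g : V → I → J → ℝ) (q : I → J → V) (z : V) (w : List (I × J)) : ℝ :=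
  tot (fun (a : I × J) (e : I → J → ℝ) => e a.1 a.2) (fun a => q a.1 a.2) g z w

theorem along_cons (g : V → I → J → ℝ) (q : I → J → V) (z : V) (a : I × J) (w : List (I × J)) :
    along g q z (a :: w) = g z a.1 a.2 + along g q (z + q a.1 a.2) w := rfl

/-- any play is a word -/
theorem total_word (g : V → I → J → ℝ) (q : I → J → V) (σ : List (I × J) → I)
    (τ : List (I × J) → I → J) (n : ℕ) (h : List (I × J)) (z : V) :
    ∃ w : List (I × J), w.length = n ∧ total g q σ τ n h z = along g q z w := by
  induction n generalizing h z with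
  | zero => exact ⟨[], rfl, rfl⟩
  | succ n ih =>
    obtain ⟨w, h1, h2⟩ := ih (h ++ [(σ h, τ h (σ h))]) (z + q (σ h) (τ h (σ h)))
    refine ⟨(σ h, τ h (σ h)) :: w, by simp [h1], ?_⟩
    rw [along_cons, ← h2]; rfl

/-- a pair of strategies that follows a word -/
theorem total_follow (g : V → I → J → ℝ) (q : I → J → V) (w : List (I × J)) (d : I × J)
    (σ : List (I × J) → I) (τ : List (I × J) → I → J)
    (hf : ∀ h, (σ h, τ h (σ h)) = w.getD h.length d) (n : ℕ) (h : List (I × J)) (z : V)
    (hn : h.length + n = w.length) :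
    total g q σ τ n h z = along g q z (w.drop h.length) := by
  induction n generalizing h z with
  | zero =>
    have : w.drop h.length = [] := List.drop_eq_nil_of_le (by omega)
    rw [this]; rfl
  | succ n ih =>
    have hlt : h.length < w.length := by omega
    have h1 := hf h
    rw [List.getD_eq_getElem _ _ hlt] at h1
    have h2 := ih (h ++ [(σ h, τ h (σ h))]) (z + q (σ h) (τ h (σ h)))
      (by rw [List.length_append, List.length_singleton]; omega)
    have h3 : w.drop h.length = (σ h, τ h (σ h)) :: w.drop (h.length + 1) := by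
      rw [List.drop_eq_getElem_cons hlt, h1]
    rw [h3, along_cons]
    have h4 : (h ++ [(σ h, τ h (σ h))]).length = h.length + 1 := by
      rw [List.length_append, List.length_singleton]
    rw [h4] at h2
    show g z (σ h) (τ h (σ h)) + _ = _
    rw [h2]

variable [Finite I] [Nonempty I] [Finite J] [Nonempty J]

theorem fin_words (g : V → I → J → ℝ) (q : I → J → V) (n : ℕ) (z : V) :
    ∃ B : ℝ, ∀ w : List (I × J), w.length = n → |along g q z w| ≤ B := by
  have : Finite {w : List (I × J) // w.length = n ∧ True} := inferInstance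
  obtain ⟨B, hB⟩ := (Set.finite_range
    (fun w : {w : List (I × J) // w.length = n ∧ True} => |along g q z w.1|)).bddAbove
  exact ⟨B, fun w hw => hB ⟨⟨w, hw, trivial⟩, rfl⟩⟩

/-- Player 2 has one action: the value is the best average along words. -/
theorem value_max [Subsingleton J] (g : V → I → J → ℝ) (q : I → J → V) (n : ℕ) (z : V) :
    value g q n z = vl (fun (a : I × J) (e : I → J → ℝ) => e a.1 a.2) (fun a => q a.1 a.2) n
      (sh z g) / n := by
  obtain ⟨B, hB⟩ := fin_words g q n z
  have hBt : ∀ σ τ, |total g q σ τ n [] z| ≤ B := by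
    intro σ τ
    obtain ⟨w, h1, h2⟩ := total_word g q σ τ n [] z
    rw [h2]; exact hB w h1
  set v := vl (fun (a : I × J) (e : I → J → ℝ) => e a.1 a.2) (fun a => q a.1 a.2) n
      (sh z g) with hv
  have hle : ∀ w : List (I × J), w.length = n → along g q z w ≤ v := by
    intro w hw
    have := le_best (fun (a : I × J) (e : I → J → ℝ) => e a.1 a.2) (fun a => q a.1 a.2) n
      (fun _ => True) (sh z g) w hw trivial
    rw [tot_sh, add_zero] at this
    exact this
  obtain ⟨w, hw1, -, hw2⟩ := best_eq (fun (a : I × J) (e : I → J → ℝ) => e a.1 a.2)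
    (fun a => q a.1 a.2) n (fun _ => True) (sh z g)
    ⟨List.replicate n (Classical.arbitrary _), List.length_replicate, trivial⟩
  rw [tot_sh, add_zero] at hw2
  have hw3 : along g q z w = v := hw2
  have hn0 : (0 : ℝ) ≤ n := Nat.cast_nonneg n
  obtain ⟨τ0⟩ : Nonempty (List (I × J) → I → J) := ⟨fun _ _ => Classical.arbitrary J⟩
  have hbelow : ∀ σ : List (I × J) → I,
      BddBelow (Set.range fun τ : List (I × J) → I → J => total g q σ τ n [] z / (n : ℝ)) := by
    intro σ
    refine ⟨-B / n, ?_⟩
    rintro _ ⟨τ, rfl⟩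
    exact div_le_div_of_nonneg_right (abs_le.1 (hBt σ τ)).1 hn0
  have hup : ∀ σ : List (I × J) → I,
      ⨅ τ : List (I × J) → I → J, total g q σ τ n [] z / (n : ℝ) ≤ v / n := by
    intro σ
    refine (ciInf_le (hbelow σ) τ0).trans ?_
    obtain ⟨u, h1, h2⟩ := total_word g q σ τ0 n [] z
    rw [h2]
    exact div_le_div_of_nonneg_right (hle u h1) hn0
  apply le_antisymm
  · exact ciSup_le hup
  · set d : I × J := Classical.arbitrary _ with hd
    set σ0 : List (I × J) → I := fun h => (w.getD h.length d).1 with hσ0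
    have h5 : ∀ τ : List (I × J) → I → J, total g q σ0 τ n [] z = v := by
      intro τ
      rw [total_follow g q w d σ0 τ (fun h => Prod.ext rfl (Subsingleton.elim _ _)) n [] z
        (by rw [List.length_nil, zero_add, hw1])]
      exact hw3
    have h6 : v / n ≤ ⨅ τ : List (I × J) → I → J, total g q σ0 τ n [] z / (n : ℝ) := by
      have : Nonempty (List (I × J) → I → J) := ⟨τ0⟩
      exact le_ciInf fun τ => by rw [h5]
    refine h6.trans (le_ciSup (f := fun σ : List (I × J) → I =>
      ⨅ τ : List (I × J) → I → J, total g q σ τ n [] z / (n : ℝ)) ?_ σ0)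
    exact ⟨v / n, by rintro _ ⟨σ, rfl⟩; exact hup σ⟩

/-- Player 1 has one action: the value is the least average along words. -/
theorem value_min [Subsingleton I] (g : V → I → J → ℝ) (q : I → J → V) (n : ℕ) (z : V) :
    value g q n z = -(vl (fun (a : I × J) (e : I → J → ℝ) => -(e a.1 a.2))
      (fun a => q a.1 a.2) n (sh z g) / n) := by
  obtain ⟨B, hB⟩ := fin_words g q n z
  have hBt : ∀ σ τ, |total g q σ τ n [] z| ≤ B := by
    intro σ τ
    obtain ⟨w, h1, h2⟩ := total_word g q σ τ n [] z
    rw [h2]; exact hB w h1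
  have hneg : ∀ (w : List (I × J)) (z : V),
      tot (fun (a : I × J) (e : I → J → ℝ) => -(e a.1 a.2)) (fun a => q a.1 a.2) g z w =
        -along g q z w := by
    intro w
    induction w with
    | nil => intro z; simp [along, tot]
    | cons a w ih =>
      intro z
      rw [along_cons, neg_add, ← ih]; rfl
  set v := vl (fun (a : I × J) (e : I → J → ℝ) => -(e a.1 a.2)) (fun a => q a.1 a.2) n
      (sh z g) with hv
  have hle : ∀ w : List (I × J), w.length = n → -v ≤ along g q z w := by
    intro w hw
    have := le_best (fun (a : I × J) (e : I → J → ℝ) => -(e a.1 a.2)) (fun a => q a.1 a.2) n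
      (fun _ => True) (sh z g) w hw trivial
    rw [tot_sh, add_zero, hneg] at this
    rw [hv]
    exact neg_le.1 this
  obtain ⟨w, hw1, -, hw2⟩ := best_eq (fun (a : I × J) (e : I → J → ℝ) => -(e a.1 a.2))
    (fun a => q a.1 a.2) n (fun _ => True) (sh z g)
    ⟨List.replicate n (Classical.arbitrary _), List.length_replicate, trivial⟩
  rw [tot_sh, add_zero, hneg] at hw2
  have hw3 : along g q z w = -v := by rw [hv]; exact neg_eq_iff_eq_neg.1 hw2
  have hn0 : (0 : ℝ) ≤ n := Nat.cast_nonneg n
  obtain ⟨σ0⟩ : Nonempty (List (I × J) → I) := ⟨fun _ => Classical.arbitrary I⟩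
  set d : I × J := Classical.arbitrary _ with hd
  set τ1 : List (I × J) → I → J := fun h _ => (w.getD h.length d).2 with hτ1
  have hbelow : ∀ σ : List (I × J) → I,
      BddBelow (Set.range fun τ : List (I × J) → I → J => total g q σ τ n [] z / (n : ℝ)) := by
    intro σ
    refine ⟨-B / n, ?_⟩
    rintro _ ⟨τ, rfl⟩
    exact div_le_div_of_nonneg_right (abs_le.1 (hBt σ τ)).1 hn0
  have hinf : ∀ σ : List (I × J) → I,
      ⨅ τ : List (I × J) → I → J, total g q σ τ n [] z / (n : ℝ) = -(v / n) := by
    intro σ
    apply le_antisymm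
    · refine (ciInf_le (hbelow σ) τ1).trans ?_
      rw [total_follow g q w d σ τ1 (fun h => Prod.ext (Subsingleton.elim _ _) rfl) n [] z
        (by rw [List.length_nil, zero_add, hw1])]
      rw [List.length_nil, List.drop_zero, hw3, neg_div]
    · have : Nonempty (List (I × J) → I → J) := ⟨τ1⟩
      refine le_ciInf fun τ => ?_
      obtain ⟨u, h1, h2⟩ := total_word g q σ τ n [] z
      rw [h2, ← neg_div]
      exact div_le_div_of_nonneg_right (hle u h1) hn0
  unfold value
  simp only [hinf]
  have : Nonempty (List (I × J) → I) := ⟨σ0⟩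
  exact ciSup_const

end

/-- no action moves -/
theorem vl_still {V E A : Type*} [AddCommGroup V] [Finite A] [Nonempty A] (φ : A → E → ℝ)
    (q : A → V) (hq : ∀ a, q a = 0) (ξ : V → E) :
    ∃ L : ℝ, ∀ n : ℕ, vl φ q n ξ = n * L := by
  obtain ⟨a0, ha0⟩ := Finite.exists_max fun a => φ a (ξ 0)
  refine ⟨φ a0 (ξ 0), fun n => ?_⟩
  have hle : ∀ w : List A, tot φ q ξ 0 w ≤ w.length * φ a0 (ξ 0) := by
    intro w
    induction w with
    | nil => simp [tot]
    | cons a w ih =>
      simp only [tot, List.length_cons]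
      rw [hq a, add_zero]
      push_cast
      linarith [ha0 a]
  have hrep : ∀ n : ℕ, tot φ q ξ 0 (List.replicate n a0) = n * φ a0 (ξ 0) := by
    intro n
    induction n with
    | zero => simp [tot]
    | succ n ih =>
      rw [List.replicate_succ]
      simp only [tot]
      rw [hq a0, add_zero, ih]
      push_cast
      ring
  apply le_antisymm
  · obtain ⟨w, hw1, -, hw2⟩ := best_eq φ q n (fun _ => True) ξ
      ⟨List.replicate n a0, List.length_replicate, trivial⟩
    unfold vl
    rw [← hw2, ← hw1]
    exact hle w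
  · rw [← hrep n]
    exact le_best φ q n (fun _ => True) ξ _ List.length_replicate trivial

/-- truncation of a payoff -/
noncomputable def clip (C x : ℝ) : ℝ := max (-C) (min x C)

theorem clip_abs {C : ℝ} (hC : 0 ≤ C) (x : ℝ) : |clip C x| ≤ C := by
  unfold clip
  rw [abs_le]
  exact ⟨le_max_left _ _, max_le (by linarith) (min_le_right _ _)⟩

theorem clip_eq {C x : ℝ} (hx : |x| ≤ C) : clip C x = x := by
  unfold clip
  have := abs_le.1 hx
  rw [min_eq_left this.2, max_eq_right this.1]

theorem clip_meas (C : ℝ) : Measurable (clip C) := by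
  unfold clip
  exact measurable_const.max (measurable_id.min measurable_const)

/-- Common part: `s = 1` for the maximiser, `s = -1` for the minimiser. -/
theorem game {V I J Ω : Type*} [AddCommGroup V] [Countable V] [IsAddTorsionFree V]
    [Finite I] [Nonempty I] [Finite J] [Nonempty J] [MeasurableSpace Ω] (P : Measure Ω)
    [IsProbabilityMeasure P] (q : I → J → V) (g : Ω → V → I → J → ℝ)
    (hmeas : ∀ z i j, Measurable fun ω => g ω z i j) {C : ℝ}
    (hbd : ∀ z i j, ∀ᵐ ω ∂P, |g ω z i j| ≤ C)
    (hind : iIndepFun (fun (z : V) ω => g ω z) P)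
    (hid : ∀ z, IdentDistrib (fun ω => g ω z) (fun ω => g ω 0) P P) (s : ℝ) (hs : |s| = 1) :
    (∀ z, ∀ᵐ ω ∂P, ∃ L : ℝ, Tendsto (fun n : ℕ =>
      vl (fun (a : I × J) (e : I → J → ℝ) => s * e a.1 a.2) (fun a => q a.1 a.2) n
        (sh z (g ω)) / (n : ℝ)) atTop (𝓝 L)) ∧
    ((∃ i j, q i j ≠ 0) → ∃ v : ℝ, ∀ z, ∀ᵐ ω ∂P, Tendsto (fun n : ℕ =>
      vl (fun (a : I × J) (e : I → J → ℝ) => s * e a.1 a.2) (fun a => q a.1 a.2) n
        (sh z (g ω)) / (n : ℝ)) atTop (𝓝 v)) := by
  have := Fintype.ofFinite I
  have := Fintype.ofFinite J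
  set D : ℝ := |C| + 1 with hD
  have hD0 : 0 < D := by positivity
  have hCD : C ≤ D := by rw [hD]; linarith [le_abs_self C]
  have hX : IID P (fun (z : V) ω => g ω z) :=
    ⟨fun z => measurable_pi_lambda _ fun i => measurable_pi_lambda _ fun j => hmeas z i j,
      hind, hid⟩
  set φ : I × J → (I → J → ℝ) → ℝ := fun a e => s * clip D (e a.1 a.2) with hφ
  have hφm : ∀ a, Measurable (φ a) := by
    intro a
    refine ((clip_meas D).comp ?_).const_mul s
    exact (measurable_pi_apply a.2).comp (measurable_pi_apply a.1)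
  have hφb : ∀ a e, |φ a e| ≤ D := by
    intro a e
    simp only [hφ]
    rw [abs_mul, hs, one_mul]
    exact clip_abs hD0.le _
  -- almost surely the truncation does nothing
  have hcl : ∀ᵐ ω ∂P, ∀ z i j, |g ω z i j| ≤ C := by
    rw [ae_all_iff]; intro z
    rw [ae_all_iff]; intro i
    rw [ae_all_iff]; intro j
    exact hbd z i j
  have heq : ∀ ω, (∀ z i j, |g ω z i j| ≤ C) → ∀ (n : ℕ) (z : V),
      vl φ (fun a => q a.1 a.2) n (sh z (g ω)) =
      vl (fun (a : I × J) (e : I → J → ℝ) => s * e a.1 a.2) (fun a => q a.1 a.2) n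
        (sh z (g ω)) := by
    intro ω hω n z
    have h1 : ∀ (w : List (I × J)) (y : V), tot φ (fun a => q a.1 a.2) (sh z (g ω)) y w =
        tot (fun (a : I × J) (e : I → J → ℝ) => s * e a.1 a.2) (fun a => q a.1 a.2)
          (sh z (g ω)) y w := by
      intro w
      induction w with
      | nil => intro y; rfl
      | cons a w ih =>
        intro y
        simp only [tot]
        rw [ih]
        congr 1
        simp only [hφ, sh]
        rw [clip_eq ((hω _ _ _).trans hCD)]
    unfold vl best
    simp only [h1]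
  constructor
  · intro z
    by_cases hq : ∃ i j, q i j ≠ 0
    · obtain ⟨i, j, hij⟩ := hq
      obtain ⟨v, hv⟩ := main hX φ (fun a => q a.1 a.2) hφm hD0 hφb (a0 := (i, j)) hij
      filter_upwards [hv z, hcl] with ω h1 h2
      refine ⟨v, h1.congr fun n => ?_⟩
      rw [← heq ω h2]; rfl
    · push Not at hq
      refine Filter.Eventually.of_forall fun ω => ?_
      obtain ⟨L, hL⟩ := vl_still (fun (a : I × J) (e : I → J → ℝ) => s * e a.1 a.2)
        (fun a => q a.1 a.2) (fun a => hq a.1 a.2) (sh z (g ω))
      refine ⟨L, tendsto_const_nhds.congr' ?_⟩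
      filter_upwards [eventually_gt_atTop 0] with n hn
      have : (n : ℝ) ≠ 0 := by positivity
      rw [hL n, mul_div_cancel_left₀ _ this]
  · rintro ⟨i, j, hij⟩
    obtain ⟨v, hv⟩ := main hX φ (fun a => q a.1 a.2) hφm hD0 hφb (a0 := (i, j)) hij
    refine ⟨v, fun z => ?_⟩
    filter_upwards [hv z, hcl] with ω h1 h2
    refine h1.congr fun n => ?_
    rw [← heq ω h2]; rfl

end Pool.Agent.V5helper96.PG
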