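import Mathlib

/-!
Deterministic part: walks driven by words in a field of payoffs, loop erasure.
-/

set_option autoImplicit false
set_option linter.unusedSectionVars false

open scoped BigOperators

namespace Pool.Agent.V5helper96.PG

variable {V E A : Type*} [AddCommGroup V]

/-- position reached from `z` by the word -/
def pos (q : A → V) : V → List A → V
  | z, [] => z
  | z, a :: w => pos q (z + q a) w

/-- positions visited from `z`, the final one included -/
def vis (q : A → V) : V → List A → List V
  | z, [] => [z]
  | z, a :: w => z :: vis q (z + q a) w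

/-- sites at which actions are taken -/
def act (q : A → V) : V → List A → List V
  | _, [] => []
  | z, a :: w => z :: act q (z + q a) w

/-- total payoff collected from `z` along the word, in the field `ξ` -/
noncomputable def tot (φ : A → E → ℝ) (q : A → V) (ξ : V → E) : V → List A → ℝ
  | _, [] => 0
  | z, a :: w => φ a (ξ z) + tot φ q ξ (z + q a) w

/-- shifted field -/
def sh (y : V) (ξ : V → E) : V → E := fun v => ξ (y + v)

section
variable (φ : A → E → ℝ) (q : A → V)

theorem pos_append (z : V) (u v : List A) : pos q z (u ++ v) = pos q (pos q z u) v := by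
  induction u generalizing z with
  | nil => rfl
  | cons a u ih => simp only [List.cons_append, pos]; exact ih _

theorem pos_add (y z : V) (w : List A) : pos q (y + z) w = y + pos q z w := by
  induction w generalizing z with
  | nil => rfl
  | cons a u ih => simp only [pos]; rw [add_assoc]; exact ih _

theorem pos_eq (z : V) (w : List A) : pos q z w = z + pos q 0 w := by
  have := pos_add q z 0 w
  rwa [add_zero] at this

theorem tot_append (ξ : V → E) (z : V) (u v : List A) :
    tot φ q ξ z (u ++ v) = tot φ q ξ z u + tot φ q ξ (pos q z u) v := by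
  induction u generalizing z with
  | nil => simp [tot, pos]
  | cons a u ih => simp only [List.cons_append, pos, tot]; rw [ih]; ring

theorem tot_sh (ξ : V → E) (y z : V) (w : List A) :
    tot φ q (sh y ξ) z w = tot φ q ξ (y + z) w := by
  induction w generalizing z with
  | nil => rfl
  | cons a u ih => simp only [tot]; rw [ih, ← add_assoc]; rfl

theorem vis_add (y z : V) (w : List A) : vis q (y + z) w = (vis q z w).map (fun v => y + v) := by
  induction w generalizing z with
  | nil => rfl
  | cons a u ih => simp only [vis, List.map_cons]; rw [← ih, add_assoc]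

theorem vis_nodup (y : V) (w : List A) : (vis q y w).Nodup ↔ (vis q 0 w).Nodup := by
  have := vis_add q y 0 w
  rw [add_zero] at this
  rw [this, List.nodup_map_iff (add_right_injective y)]

theorem vis_suffix (z : V) (u v : List A) : vis q (pos q z u) v <:+ vis q z (u ++ v) := by
  induction u generalizing z with
  | nil => exact List.suffix_rfl
  | cons a u ih =>
    simp only [List.cons_append, pos, vis]
    exact (ih _).trans (List.suffix_cons _ _)

theorem mem_vis {z y : V} {w : List A} (h : y ∈ vis q z w) :
    ∃ u v, w = u ++ v ∧ pos q z u = y := by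
  induction w generalizing z with
  | nil =>
    simp only [vis, List.mem_singleton] at h
    exact ⟨[], [], rfl, h.symm⟩
  | cons a w ih =>
    simp only [vis, List.mem_cons] at h
    rcases h with h | h
    · exact ⟨[], a :: w, rfl, h.symm⟩
    · obtain ⟨u, v, h1, h2⟩ := ih h
      exact ⟨a :: u, v, by rw [h1]; rfl, h2⟩

theorem pos_mem_vis (z : V) (w : List A) : pos q z w ∈ vis q z w := by
  induction w generalizing z with
  | nil => simp [vis, pos]
  | cons a w ih => simp only [vis, pos, List.mem_cons]; exact Or.inr (ih _)

theorem act_sub (z : V) (w : List A) : (act q z w).Sublist (vis q z w) := by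
  induction w generalizing z with
  | nil => simp [vis, act]
  | cons a w ih => simp only [vis, act]; exact (ih _).cons_cons _

theorem act_length (z : V) (w : List A) : (act q z w).length = w.length := by
  induction w generalizing z with
  | nil => rfl
  | cons a w ih => simp only [act, List.length_cons]; rw [ih]

theorem tot_congr {ξ η : V → E} (z : V) (w : List A) (h : ∀ v ∈ act q z w, ξ v = η v) :
    tot φ q ξ z w = tot φ q η z w := by
  induction w generalizing z with
  | nil => rfl
  | cons a w ih =>
    simp only [act, List.mem_cons] at h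
    simp only [tot]
    rw [h z (Or.inl rfl), ih _ fun v hv => h v (Or.inr hv)]

theorem tot_abs {C : ℝ} (hφ : ∀ a e, |φ a e| ≤ C) (ξ : V → E) (z : V) (w : List A) :
    |tot φ q ξ z w| ≤ C * w.length := by
  induction w generalizing z with
  | nil => simp [tot]
  | cons a w ih =>
    simp only [tot, List.length_cons]
    push_cast
    have h1 := abs_add_le (φ a (ξ z)) (tot φ q ξ (z + q a) w)
    have h2 := ih (z + q a)
    have h3 := hφ a (ξ z)
    linarith

/-- changing the field at one site, for a word whose sites are distinct -/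
theorem tot_update [DecidableEq V] {C : ℝ} (hφ : ∀ a e, |φ a e| ≤ C) (ξ : V → E) (z : V)
    (w : List A) (hw : (act q z w).Nodup) (v : V) (e : E) :
    tot φ q ξ z w - tot φ q (Function.update ξ v e) z w ≤ if v ∈ act q z w then 2 * C else 0 := by
  induction w generalizing z with
  | nil => simp [tot, act]
  | cons a w ih =>
    simp only [act, List.nodup_cons] at hw
    simp only [act, List.mem_cons, tot]
    have h1 := ih (z + q a) hw.2
    by_cases hv : v = z
    · subst hv
      rw [if_neg hw.1] at h1
      rw [if_pos (Or.inl rfl), Function.update_self]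
      have h2 := abs_le.1 (hφ a (ξ v))
      have h3 := abs_le.1 (hφ a e)
      linarith
    · rw [Function.update_of_ne (Ne.symm hv)]
      by_cases hv2 : v ∈ act q (z + q a) w
      · rw [if_pos hv2] at h1
        rw [if_pos (Or.inr hv2)]
        linarith
      · rw [if_neg hv2] at h1
        rw [if_neg (by tauto)]
        linarith

/-- Loop erasure: if every closed word has mean payoff at most `W`, a walk is dominated by a
self-avoiding walk plus `W` for each erased step. -/
theorem loop_erase (ξ : V → E) (W : ℝ)
    (hW : ∀ (y : V) (c : List A), c ≠ [] → pos q y c = y → tot φ q ξ y c ≤ c.length * W) :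
    ∀ (w : List A) (z : V), ∃ w' : List A, w'.length ≤ w.length ∧ (vis q z w').Nodup ∧
      pos q z w' = pos q z w ∧
      tot φ q ξ z w ≤ tot φ q ξ z w' + ((w.length : ℝ) - w'.length) * W := by
  intro w
  induction w with
  | nil => intro z; exact ⟨[], le_rfl, by simp [vis], rfl, by simp [tot]⟩
  | cons a w ih =>
    intro z
    obtain ⟨w1, h1, h2, h3, h4⟩ := ih (z + q a)
    by_cases hz : z ∈ vis q (z + q a) w1
    · obtain ⟨u, v, h5, h6⟩ := mem_vis q hz
      refine ⟨v, ?_, ?_, ?_, ?_⟩
      · rw [h5] at h1
        simp only [List.length_append, List.length_cons] at h1 ⊢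
        omega
      · have := vis_suffix q (z + q a) u v
        rw [h6, ← h5] at this
        exact this.sublist.nodup h2
      · simp only [pos]
        rw [← h3, h5, pos_append, h6]
      · have h7 := hW z (a :: u) (by simp) (by simp only [pos]; exact h6)
        simp only [tot, List.length_cons] at h7 ⊢
        rw [h5, tot_append, h6] at h4
        simp only [List.length_append] at h4
        push_cast at h4 h7 ⊢
        linarith
    · refine ⟨a :: w1, by simp only [List.length_cons]; omega, ?_, ?_, ?_⟩
      · simp only [vis, List.nodup_cons]; exact ⟨hz, h2⟩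
      · simp only [pos]; exact h3
      · simp only [tot, List.length_cons]
        push_cast
        linarith

end

/-! ### Finite families of words -/

instance finW (A : Type*) [Finite A] (k : ℕ) (P : List A → Prop) :
    Finite {w : List A // w.length = k ∧ P w} := by
  have : Finite {w : List A // w.length = k} := by
    have := Fintype.ofFinite A
    exact (inferInstance : Finite (List.Vector A k))
  exact Finite.of_injective
    (fun w : {w : List A // w.length = k ∧ P w} => (⟨w.1, w.2.1⟩ : {w : List A // w.length = k}))
    fun a b h => Subtype.ext (congrArg (fun x : {w : List A // w.length = k} => x.1) h)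

/-- best total payoff from the origin among the words of length `k` with a property -/
noncomputable def best (φ : A → E → ℝ) (q : A → V) (k : ℕ) (P : List A → Prop) (ξ : V → E) : ℝ :=
  ⨆ w : {w : List A // w.length = k ∧ P w}, tot φ q ξ 0 w.1

section
variable (φ : A → E → ℝ) (q : A → V) [Finite A]

theorem le_best (k : ℕ) (P : List A → Prop) (ξ : V → E) (w : List A) (hk : w.length = k)
    (hP : P w) : tot φ q ξ 0 w ≤ best φ q k P ξ :=
  le_ciSup (f := fun w : {w : List A // w.length = k ∧ P w} => tot φ q ξ 0 w.1)
    (Set.finite_range _).bddAbove ⟨w, hk, hP⟩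

theorem best_eq (k : ℕ) (P : List A → Prop) (ξ : V → E) (h : ∃ w : List A, w.length = k ∧ P w) :
    ∃ w : List A, w.length = k ∧ P w ∧ tot φ q ξ 0 w = best φ q k P ξ := by
  obtain ⟨w0, h0⟩ := h
  have : Nonempty {w : List A // w.length = k ∧ P w} := ⟨⟨w0, h0⟩⟩
  obtain ⟨w, hw⟩ := exists_eq_ciSup_of_finite
    (f := fun w : {w : List A // w.length = k ∧ P w} => tot φ q ξ 0 w.1)
  exact ⟨w.1, w.2.1, w.2.2, hw⟩

theorem best_abs {C : ℝ} (hC : 0 ≤ C) (hφ : ∀ a e, |φ a e| ≤ C) (k : ℕ) (P : List A → Prop)
    (ξ : V → E) : |best φ q k P ξ| ≤ C * k := by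
  by_cases h : ∃ w : List A, w.length = k ∧ P w
  · obtain ⟨w, h1, -, h3⟩ := best_eq φ q k P ξ h
    rw [← h3, ← h1]
    exact tot_abs φ q hφ ξ 0 w
  · have : IsEmpty {w : List A // w.length = k ∧ P w} := ⟨fun w => h ⟨w.1, w.2⟩⟩
    unfold best
    rw [Real.iSup_of_isEmpty, abs_zero]
    positivity

theorem best_mono (k : ℕ) (P Q : List A → Prop) (ξ : V → E) (hPQ : ∀ w, P w → Q w)
    (h : ∃ w : List A, w.length = k ∧ P w) : best φ q k P ξ ≤ best φ q k Q ξ := by
  obtain ⟨w, h1, h2, h3⟩ := best_eq φ q k P ξ h
  rw [← h3]
  exact le_best φ q k Q ξ w h1 (hPQ w h2)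

/-- value of the `n`-stage total payoff game from the origin -/
noncomputable def vl (n : ℕ) (ξ : V → E) : ℝ := best φ q n (fun _ => True) ξ

/-- Extending a word of length at most `n`. -/
theorem vl_ge [Nonempty A] {C : ℝ} (hφ : ∀ a e, |φ a e| ≤ C) (n : ℕ) (ξ : V → E) (w : List A)
    (hw : w.length ≤ n) : tot φ q ξ 0 w - C * ((n : ℝ) - w.length) ≤ vl φ q n ξ := by
  obtain ⟨a⟩ := ‹Nonempty A›
  have h1 := le_best φ q n (fun _ => True) ξ (w ++ List.replicate (n - w.length) a)
    (by rw [List.length_append, List.length_replicate]; omega) trivial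
  rw [tot_append] at h1
  have h2 := (abs_le.1 (tot_abs φ q hφ ξ (pos q 0 w) (List.replicate (n - w.length) a))).1
  rw [List.length_replicate, Nat.cast_sub hw] at h2
  unfold vl
  linarith

/-- chain of blocks -/
theorem chain (k : ℕ) (x : V) (h : ∃ w : List A, w.length = k ∧ pos q 0 w = x) (ξ : V → E)
    (m : ℕ) : ∃ w : List A, w.length = m * k ∧ pos q 0 w = m • x ∧
      tot φ q ξ 0 w =
        ∑ i ∈ Finset.range m, best φ q k (fun w => pos q 0 w = x) (sh (i • x) ξ) := by
  induction m with
  | zero => exact ⟨[], by simp, by simp [pos], by simp [tot]⟩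
  | succ m ih =>
    obtain ⟨w, h1, h2, h3⟩ := ih
    obtain ⟨u, h4, h5, h6⟩ := best_eq φ q k (fun w => pos q 0 w = x) (sh (m • x) ξ) h
    refine ⟨w ++ u, ?_, ?_, ?_⟩
    · rw [List.length_append, h1, h4]; ring
    · rw [pos_append, h2, pos_eq, h5, succ_nsmul]
    · rw [tot_append, h2, h3, Finset.sum_range_succ, ← h6, tot_sh, add_zero]

/-- `r`-fold repetition of a closed word -/
theorem cyc (ξ : V → E) (y : V) (c : List A) (hc : pos q y c = y) (r : ℕ) :
    ∃ w : List A, w.length = r * c.length ∧ pos q y w = y ∧
      tot φ q ξ y w = r * tot φ q ξ y c := by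
  induction r with
  | zero => exact ⟨[], by simp, by simp [pos], by simp [tot]⟩
  | succ r ih =>
    obtain ⟨w, h1, h2, h3⟩ := ih
    refine ⟨w ++ c, ?_, ?_, ?_⟩
    · rw [List.length_append, h1]; ring
    · rw [pos_append, h2, hc]
    · rw [tot_append, h2, h3]; push_cast; ring

/-- A good cycle reachable from the origin bounds the value from below. -/
theorem vl_cyc [Nonempty A] {C : ℝ} (hC : 0 ≤ C) (hφ : ∀ a e, |φ a e| ≤ C) (ξ : V → E)
    (u c : List A) (hc : c ≠ []) (hcl : pos q (pos q 0 u) c = pos q 0 u) (w : ℝ)
    (hw : c.length * w ≤ tot φ q ξ (pos q 0 u) c) (hwC : |w| ≤ C) :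
    ∃ K : ℝ, ∀ n : ℕ, n * w - K ≤ vl φ q n ξ := by
  have hm : 0 < c.length := List.length_pos_iff.2 hc
  have hwC' := abs_le.1 hwC
  refine ⟨2 * C * u.length + 2 * C * c.length, fun n => ?_⟩
  by_cases hn : n < u.length
  · have h1 := vl_ge φ q hφ n ξ [] (by simp)
    simp only [tot, List.length_nil] at h1
    have h2 : (n : ℝ) ≤ u.length := by exact_mod_cast hn.le
    have h3 : 0 ≤ C * c.length := by positivity
    have h4 : (n : ℝ) * w ≤ n * C := mul_le_mul_of_nonneg_left hwC'.2 (Nat.cast_nonneg n)
    push_cast at h1
    nlinarith [mul_le_mul_of_nonneg_left h2 hC]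
  · push Not at hn
    set r := (n - u.length) / c.length with hr
    have h1 : r * c.length ≤ n - u.length := Nat.div_mul_le_self _ _
    have h2 : n - u.length < (r + 1) * c.length := by
      have := Nat.lt_div_mul_add hm (a := n - u.length)
      rw [add_mul, one_mul]; exact this
    obtain ⟨c', h3, h4, h5⟩ := cyc φ q ξ (pos q 0 u) c hcl r
    have h6 : (u ++ c').length = u.length + r * c.length := by rw [List.length_append, h3]
    have h7 := vl_ge φ q hφ n ξ (u ++ c') (by rw [h6]; omega)
    rw [tot_append, h5, h6] at h7
    have h8 := (abs_le.1 (tot_abs φ q hφ ξ 0 u)).1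
    have h9 : (r : ℝ) * c.length ≤ n - u.length := by
      have : ((r * c.length : ℕ) : ℝ) ≤ ((n - u.length : ℕ) : ℝ) := by exact_mod_cast h1
      rw [Nat.cast_sub hn] at this
      exact_mod_cast this
    have h10 : (n : ℝ) - u.length ≤ (r : ℝ) * c.length + c.length := by
      have : ((n - u.length : ℕ) : ℝ) ≤ (((r + 1) * c.length : ℕ) : ℝ) := by exact_mod_cast h2.le
      rw [Nat.cast_sub hn] at this
      push_cast at this
      linarith
    have h11 : (r : ℝ) * (c.length * w) ≤ r * tot φ q ξ (pos q 0 u) c :=
      mul_le_mul_of_nonneg_left hw (Nat.cast_nonneg r)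
    push_cast at h7
    have h12 : C * ((n : ℝ) - (u.length + r * c.length)) ≤ C * c.length :=
      mul_le_mul_of_nonneg_left (by linarith) hC
    have h13 : (n : ℝ) * w - C * (u.length + c.length) ≤ r * (c.length * w) := by
      have e : (n : ℝ) * w - r * (c.length * w) = (n - r * c.length) * w := by ring
      have h14 : ((n : ℝ) - r * c.length) * w ≤ (n - r * c.length) * C := by
        apply mul_le_mul_of_nonneg_left hwC'.2
        have : (0 : ℝ) ≤ u.length := Nat.cast_nonneg _
        linarith
      have h15 : ((n : ℝ) - r * c.length) * C ≤ (u.length + c.length) * C := by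
        apply mul_le_mul_of_nonneg_right _ hC
        linarith
      linarith
    linarith

/-- Chain of blocks bounds the value from below. -/
theorem vl_chain [Nonempty A] {C : ℝ} (hφ : ∀ a e, |φ a e| ≤ C) (k : ℕ) (x : V)
    (h : ∃ w : List A, w.length = k ∧ pos q 0 w = x) (ξ : V → E) (n m : ℕ) (hm : m * k ≤ n) :
    ∑ i ∈ Finset.range m, best φ q k (fun w => pos q 0 w = x) (sh (i • x) ξ) -
      C * ((n : ℝ) - m * k) ≤ vl φ q n ξ := by
  obtain ⟨w, h1, -, h3⟩ := chain φ q k x h ξ m
  have := vl_ge φ q hφ n ξ w (by rw [h1]; exact hm)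
  rw [h3, h1] at this
  push_cast at this
  exact this

end

end Pool.Agent.V5helper96.PG
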