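import Pool.Agent.V5helper96.PG.Prob

/-!
Almost sure convergence of the value of the maximiser in an i.i.d. field.
-/

set_option autoImplicit false
set_option linter.unusedSectionVars false

open scoped BigOperators Topology
open MeasureTheory ProbabilityTheory Filter

namespace Pool.Agent.V5helper96.PG

theorem summ (N : ℕ) {c : ℝ} (hc : 0 < c) :
    Summable fun n : ℕ => (n : ℝ) * ((n : ℝ) + 1) ^ N * (2 * Real.exp (-(c * Real.sqrt n))) := by
  set m : ℕ := 2 * (N + 3) with hm
  set D : ℝ := 2 ^ (N + 1) * (m.factorial : ℝ) / c ^ m with hD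
  have hs : Summable fun n : ℕ => D * (1 / (n : ℝ) ^ 2) :=
    (Real.summable_one_div_nat_pow.2 (by norm_num)).mul_left D
  refine Summable.of_nonneg_of_le (fun n => by positivity) (fun n => ?_) hs
  rcases Nat.eq_zero_or_pos n with h0 | h0
  · subst h0; simp
  · have hn : (1 : ℝ) ≤ n := by exact_mod_cast h0
    have hn0 : (0 : ℝ) < n := by linarith
    set y : ℝ := c * Real.sqrt n with hy
    have hy0 : 0 < y := mul_pos hc (Real.sqrt_pos.2 hn0)
    have h1 := Real.pow_div_factorial_le_exp y hy0.le m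
    have h2 : y ^ m = c ^ m * (n : ℝ) ^ (N + 3) := by
      rw [hy, mul_pow, hm, pow_mul (Real.sqrt n), Real.sq_sqrt hn0.le]
    have h3 : Real.exp (-y) ≤ (m.factorial : ℝ) / (c ^ m * (n : ℝ) ^ (N + 3)) := by
      rw [Real.exp_neg, ← h2, inv_le_comm₀ (Real.exp_pos _) (by positivity), inv_div]
      exact h1
    have h4 : ((n : ℝ) + 1) ^ N ≤ 2 ^ N * (n : ℝ) ^ N := by
      rw [← mul_pow]
      exact pow_le_pow_left₀ (by positivity) (by linarith) N
    calc (n : ℝ) * ((n : ℝ) + 1) ^ N * (2 * Real.exp (-y))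
        ≤ (n : ℝ) * (2 ^ N * (n : ℝ) ^ N) *
          (2 * ((m.factorial : ℝ) / (c ^ m * (n : ℝ) ^ (N + 3)))) := by gcongr
      _ = D * (1 / (n : ℝ) ^ 2) := by
          rw [hD]
          field_simp
          ring

section
variable {Ω V E A : Type*} [MeasurableSpace Ω] {P : Measure Ω} [IsProbabilityMeasure P]
  [MeasurableSpace E] [AddCommGroup V] [Countable V] [IsAddTorsionFree V] [Nonempty E]
  [Fintype A] [Nonempty A]

/-- almost sure linear lower bound for the value -/
def Low (φ : A → E → ℝ) (q : A → V) (P : Measure Ω) (X : V → Ω → E) (a : ℝ) : Prop :=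
  ∀ z : V, ∀ᵐ ω ∂P, ∃ K : ℝ, ∀ n : ℕ, n * a - K ≤ vl φ q n (sh z (fld X ω))

variable {X : V → Ω → E} (h : IID P X) (φ : A → E → ℝ) (q : A → V)
  (hm : ∀ a, Measurable (φ a)) {C : ℝ} (hC : 0 < C) (hφ : ∀ a e, |φ a e| ≤ C)

include h hm hC hφ

theorem low_triv {a : ℝ} (ha : a ≤ -C) : Low φ q P X a := by
  intro z
  refine Filter.Eventually.of_forall fun ω => ⟨0, fun n => ?_⟩
  have h1 := vl_ge φ q hφ n (sh z (fld X ω)) [] (by simp)
  simp only [tot, List.length_nil] at h1
  have h2 : (n : ℝ) * a ≤ n * -C := mul_le_mul_of_nonneg_left ha (Nat.cast_nonneg n)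
  push_cast at h1
  linarith

theorem low_chain {k : ℕ} (hk : 1 ≤ k) {x : V} (hx : x ≠ 0)
    (hw : ∃ w : List A, w.length = k ∧ pos q 0 w = x) {a : ℝ}
    (ha : a < (∫ ω, best φ q k (fun w => pos q 0 w = x) (fld X ω) ∂P) / k) :
    Low φ q P X a := by
  intro z
  obtain ⟨Λ, hΛ⟩ := loc_best (E := E) φ q k
  obtain ⟨M, hM, hlim⟩ := h.slln (meas_best φ q hm k (fun w => pos q 0 w = x))
    (fun ξ => best_abs φ q hC.le hφ k _ ξ) (hΛ _) hx z
  filter_upwards [hlim] with ω hω
  set ξ := sh z (fld X ω) with hξ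
  have hk0 : (0 : ℝ) < k := by exact_mod_cast hk
  have hM0 : (0 : ℝ) < M := by exact_mod_cast hM
  rw [lt_div_iff₀ hk0] at ha
  obtain ⟨j0, hj0⟩ := eventually_atTop.1 (hω.eventually_const_lt ha)
  have hs : ∀ j : ℕ, j0 ≤ j → (j : ℝ) * M * (a * k) ≤
      ∑ i ∈ Finset.range (j * M), best φ q k (fun w => pos q 0 w = x) (sh (i • x) ξ) := by
    intro j hj
    rcases Nat.eq_zero_or_pos j with h0 | h0
    · subst h0; simp
    · have h1 := (hj0 j hj).le
      have hj1 : (0 : ℝ) < j := by exact_mod_cast h0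
      rw [le_div_iff₀ (by positivity)] at h1
      linarith
  refine ⟨((j0 : ℝ) + 1) * M * k * (|a| + C), fun n => ?_⟩
  have ha1 := le_abs_self a
  have ha2 := neg_abs_le a
  have hL : 0 < M * k := Nat.mul_pos hM hk
  by_cases hn : n < j0 * (M * k)
  · have h1 := vl_ge φ q hφ n ξ [] (by simp)
    simp only [tot, List.length_nil] at h1
    have h2 : (n : ℝ) ≤ j0 * (M * k) := by exact_mod_cast hn.le
    have h3 : (n : ℝ) * (a + C) ≤ ((j0 : ℝ) + 1) * M * k * (|a| + C) := by
      calc (n : ℝ) * (a + C) ≤ n * (|a| + C) :=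
            mul_le_mul_of_nonneg_left (by linarith) (Nat.cast_nonneg n)
        _ ≤ ((j0 : ℝ) + 1) * M * k * (|a| + C) := by
            apply mul_le_mul_of_nonneg_right _ (by positivity)
            have : (0 : ℝ) ≤ M * k := by positivity
            nlinarith
    push_cast at h1
    linarith
  · push Not at hn
    set j := n / (M * k) with hj
    have h1 : j * (M * k) ≤ n := Nat.div_mul_le_self _ _
    have h2 : n < (j + 1) * (M * k) := by
      have := Nat.lt_div_mul_add hL (a := n)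
      rw [add_mul, one_mul]; exact this
    have hjj : j0 ≤ j := (Nat.le_div_iff_mul_le hL).2 hn
    have h3 := vl_chain φ q hφ k x hw ξ n (j * M) (by rw [mul_assoc]; exact h1)
    have h4 := hs j hjj
    have h5 : (j : ℝ) * (M * k) ≤ n := by exact_mod_cast h1
    have h6 : (n : ℝ) ≤ (j + 1) * (M * k) := by exact_mod_cast h2.le
    have h7 : C * ((n : ℝ) - (j * M : ℕ) * k) ≤ C * (M * k) := by
      apply mul_le_mul_of_nonneg_left _ hC.le
      push_cast
      linarith
    have h8 : (n : ℝ) * a - |a| * (M * k) ≤ j * M * (a * k) := by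
      have e : (n : ℝ) * a - j * M * (a * k) = (n - j * (M * k)) * a := by ring
      have h9 : ((n : ℝ) - j * (M * k)) * a ≤ (n - j * (M * k)) * |a| :=
        mul_le_mul_of_nonneg_left ha1 (by linarith)
      have h10 : ((n : ℝ) - j * (M * k)) * |a| ≤ (M * k) * |a| :=
        mul_le_mul_of_nonneg_right (by linarith) (abs_nonneg a)
      linarith
    have h11 : (M : ℝ) * k * (|a| + C) ≤ ((j0 : ℝ) + 1) * M * k * (|a| + C) := by
      apply mul_le_mul_of_nonneg_right _ (by positivity)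
      have h12 : (0 : ℝ) ≤ j0 := Nat.cast_nonneg _
      have h13 : (0 : ℝ) ≤ M * k := by positivity
      nlinarith
    nlinarith

theorem low_cyc {c : List A} (hc : c ≠ []) (hcl : pos q 0 c = 0) {w : ℝ} (hwC : |w| ≤ C)
    (hpos : P {ω | c.length * w ≤ tot φ q (fld X ω) 0 c} ≠ 0) {a0 : A} (ha0 : q a0 ≠ 0) :
    Low φ q P X w := by
  classical
  intro z
  set f : (V → E) → ℝ := fun ξ => if c.length * w ≤ tot φ q ξ 0 c then 1 else 0 with hf
  have hset : MeasurableSet {ξ : V → E | c.length * w ≤ tot φ q ξ 0 c} :=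
    measurableSet_le measurable_const (meas_tot φ q hm 0 c)
  have hfm : Measurable f := Measurable.ite hset measurable_const measurable_const
  have hfB : ∀ ξ, |f ξ| ≤ 1 := by
    intro ξ
    simp only [hf]
    split_ifs <;> simp
  have hfl : Loc (act q 0 c).toFinset f := by
    intro ξ η hh
    simp only [hf]
    rw [show tot φ q ξ 0 c = tot φ q η 0 c from loc_tot φ q c ξ η hh]
  obtain ⟨M, hM, hlim⟩ := h.slln hfm hfB hfl ha0 z
  have hE : ∫ ω, f (fld X ω) ∂P = P.real {ω | c.length * w ≤ tot φ q (fld X ω) 0 c} := by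
    have hset' : MeasurableSet {ω | c.length * w ≤ tot φ q (fld X ω) 0 c} := h.mfld hset
    rw [← integral_indicator_one hset']
    refine integral_congr_ae (Filter.Eventually.of_forall fun ω => ?_)
    by_cases hω : c.length * w ≤ tot φ q (fld X ω) 0 c
    · rw [Set.indicator_of_mem (show ω ∈ {ω | c.length * w ≤ tot φ q (fld X ω) 0 c} from hω)]
      simp only [hf]
      rw [if_pos hω]; rfl
    · rw [Set.indicator_of_notMem (show ω ∉ {ω | c.length * w ≤ tot φ q (fld X ω) 0 c} from hω)]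
      simp only [hf]
      rw [if_neg hω]
  have hE0 : 0 < ∫ ω, f (fld X ω) ∂P := by
    rw [hE]
    exact ENNReal.toReal_pos hpos (measure_ne_top _ _)
  filter_upwards [hlim] with ω hω
  have hex : ∃ i : ℕ, f (sh (i • q a0) (sh z (fld X ω))) ≠ 0 := by
    by_contra hcon
    push Not at hcon
    have : (fun n : ℕ => (∑ i ∈ Finset.range (n * M), f (sh (i • q a0) (sh z (fld X ω)))) /
        ((n : ℝ) * M)) = fun _ => 0 := by
      funext n
      rw [Finset.sum_eq_zero fun i _ => hcon i, zero_div]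
    rw [this] at hω
    exact hE0.ne (tendsto_nhds_unique tendsto_const_nhds hω)
  obtain ⟨i, hi⟩ := hex
  have hi' : c.length * w ≤ tot φ q (sh (i • q a0) (sh z (fld X ω))) 0 c := by
    by_contra hcon
    apply hi
    simp only [hf]
    rw [if_neg hcon]
  rw [tot_sh, add_zero] at hi'
  have hrep : ∀ i : ℕ, pos q 0 (List.replicate i a0) = i • q a0 := by
    intro i
    induction i with
    | zero => simp [pos]
    | succ i ih => rw [List.replicate_succ', pos_append, ih, succ_nsmul]; rfl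
  have hcl' : pos q (pos q 0 (List.replicate i a0)) c = pos q 0 (List.replicate i a0) := by
    rw [pos_eq q (pos q 0 (List.replicate i a0)) c, hcl, add_zero]
  exact vl_cyc φ q hC.le hφ (sh z (fld X ω)) (List.replicate i a0) c hc hcl' w
    (by rw [hrep]; exact hi') hwC

theorem upper {W Ast : ℝ}
    (hW : ∀ᵐ ω ∂P, ∀ (y : V) (c : List A), c ≠ [] → pos q y c = y →
      tot φ q (fld X ω) y c ≤ c.length * W)
    (hA : ∀ (k : ℕ) (x : V), 1 ≤ k → x ≠ 0 → (∃ w : List A, w.length = k ∧ pos q 0 w = x) →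
      ∫ ω, best φ q k (fun w => pos q 0 w = x) (fld X ω) ∂P ≤ k * Ast)
    {ε : ℝ} (hε : 0 < ε) (z : V) :
    ∀ᵐ ω ∂P, ∀ᶠ n : ℕ in atTop, vl φ q n (sh z (fld X ω)) ≤ n * (max Ast W + ε) := by
  classical
  choose R hRc hR using fun n => ends (V := V) q n
  set S : ℕ → V → (V → E) → ℝ := fun k x =>
    best φ q k (fun w => pos q 0 w = x ∧ (vis q 0 w).Nodup) with hS
  have hSm : ∀ k x, Measurable (S k x) := fun k x => meas_best φ q hm k _
  set G : ℕ → V → ℝ := fun k x => ∫ ω, S k x (fld X ω) ∂P with hG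
  set Bad : ℕ → Set Ω := fun n => ⋃ k ∈ Finset.Icc 1 n, ⋃ x ∈ R n,
    {ω | G k x + ε * n ≤ S k x (sh z (fld X ω))} with hBad
  set c : ℝ := ε / (2 * C) with hc
  have hc0 : 0 < c := by positivity
  -- probability of a single bad event
  have h1 : ∀ n k : ℕ, ∀ x : V, 1 ≤ k → k ≤ n →
      P.real {ω | G k x + ε * n ≤ S k x (sh z (fld X ω))} ≤
        2 * Real.exp (-(c * Real.sqrt n)) := by
    intro n k x hk hkn
    have hk0 : (0 : ℝ) < k := by exact_mod_cast hk
    have hkn' : (k : ℝ) ≤ n := by exact_mod_cast hkn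
    have hid := h.shift z
    have hset : MeasurableSet {ξ : V → E | G k x + ε * n ≤ S k x ξ} :=
      measurableSet_le measurable_const (hSm k x)
    have e1 : P.real {ω | G k x + ε * n ≤ S k x (sh z (fld X ω))} =
        P.real {ω | G k x + ε * n ≤ S k x (fld X ω)} := by
      have := hid.measure_mem_eq hset
      unfold Measure.real
      exact congrArg ENNReal.toReal this
    rw [e1]
    obtain ⟨Λ, hΛ⟩ := loc_best (E := E) φ q k
    have hK : 0 < 2 * C * Real.sqrt k := by
      have := Real.sqrt_pos.2 hk0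
      positivity
    have h2 := h.conc (hSm k x) (fun ξ => best_abs φ q hC.le hφ k _ ξ) (hΛ _) hK
      (fun ξ τ => best_diff φ q hC.le hφ k _
        (fun w hw => (act_sub q 0 w).nodup hw.2) Λ ξ τ) (ε * n)
    refine h2.trans ?_
    apply mul_le_mul_of_nonneg_left _ (by norm_num)
    apply Real.exp_le_exp.2
    rw [neg_div, neg_le_neg_iff, le_div_iff₀ hK]
    have h3 : Real.sqrt k ≤ Real.sqrt n := Real.sqrt_le_sqrt hkn'
    have h4 : Real.sqrt n * Real.sqrt n = n := Real.mul_self_sqrt (Nat.cast_nonneg n)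
    calc c * Real.sqrt n * (2 * C * Real.sqrt k) = ε * (Real.sqrt n * Real.sqrt k) := by
          rw [hc]; field_simp
      _ ≤ ε * (Real.sqrt n * Real.sqrt n) := by gcongr
      _ = ε * n := by rw [h4]
  have h2 : ∀ n : ℕ, P.real (Bad n) ≤
      (n : ℝ) * ((n : ℝ) + 1) ^ Fintype.card A * (2 * Real.exp (-(c * Real.sqrt n))) := by
    intro n
    calc P.real (Bad n) ≤ ∑ k ∈ Finset.Icc 1 n, P.real (⋃ x ∈ R n,
          {ω | G k x + ε * n ≤ S k x (sh z (fld X ω))}) := measureReal_biUnion_finset_le _ _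
      _ ≤ ∑ _k ∈ Finset.Icc 1 n, ((n : ℝ) + 1) ^ Fintype.card A *
            (2 * Real.exp (-(c * Real.sqrt n))) := by
          apply Finset.sum_le_sum
          intro k hk
          rw [Finset.mem_Icc] at hk
          calc P.real (⋃ x ∈ R n, {ω | G k x + ε * n ≤ S k x (sh z (fld X ω))})
              ≤ ∑ x ∈ R n, P.real {ω | G k x + ε * n ≤ S k x (sh z (fld X ω))} :=
                measureReal_biUnion_finset_le _ _
            _ ≤ ∑ _x ∈ R n, 2 * Real.exp (-(c * Real.sqrt n)) :=
                Finset.sum_le_sum fun x _ => h1 n k x hk.1 hk.2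
            _ = (R n).card * (2 * Real.exp (-(c * Real.sqrt n))) := by
                rw [Finset.sum_const, nsmul_eq_mul]
            _ ≤ ((n : ℝ) + 1) ^ Fintype.card A * (2 * Real.exp (-(c * Real.sqrt n))) :=
                mul_le_mul_of_nonneg_right (hRc n) (by positivity)
      _ = _ := by
          rw [Finset.sum_const, Nat.card_Icc, Nat.add_sub_cancel, nsmul_eq_mul, mul_assoc]
  have h3 : ∑' n, P (Bad n) ≠ ⊤ := by
    have hs := summ (Fintype.card A) hc0
    refine ne_top_of_le_ne_top hs.tsum_ofReal_ne_top (ENNReal.tsum_le_tsum fun n => ?_)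
    rw [← ofReal_measureReal (measure_ne_top _ _)]
    exact ENNReal.ofReal_le_ofReal (h2 n)
  filter_upwards [ae_eventually_notMem h3, hW] with ω hω hWω
  filter_upwards [hω] with n hn
  set ξ := sh z (fld X ω) with hξ
  have hWξ : ∀ (y : V) (c : List A), c ≠ [] → pos q y c = y → tot φ q ξ y c ≤ c.length * W := by
    intro y c hc1 hc2
    rw [hξ, tot_sh]
    exact hWω (z + y) c hc1 (by rw [pos_add, hc2])
  obtain ⟨w, hw1, -, hw3⟩ := best_eq φ q n (fun _ => True) ξ
    ⟨List.replicate n (Classical.arbitrary A), List.length_replicate, trivial⟩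
  have hvl : vl φ q n ξ = tot φ q ξ 0 w := hw3.symm
  rw [hvl]
  obtain ⟨w', h4, h5, -, h7⟩ := loop_erase φ q ξ W hWξ w 0
  rw [hw1] at h4 h7
  have hmx1 := le_max_left Ast W
  have hmx2 := le_max_right Ast W
  have hn0 : (0 : ℝ) ≤ n := Nat.cast_nonneg n
  have h4' : (w'.length : ℝ) ≤ n := by exact_mod_cast h4
  refine h7.trans ?_
  have h8 : ((n : ℝ) - w'.length) * W ≤ (n - w'.length) * max Ast W :=
    mul_le_mul_of_nonneg_left hmx2 (by linarith)
  have hεn : 0 ≤ ε * n := by positivity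
  rcases w' with _ | ⟨b, w'⟩
  · simp only [tot, List.length_nil] at h8 ⊢
    push_cast at h8 ⊢
    linarith
  · set w1 := b :: w' with hw1'
    have hk1 : 1 ≤ w1.length := by rw [hw1']; simp
    set x := pos q 0 w1 with hx
    have hx0 : x ≠ 0 := by
      intro hx0
      have h9 : x ∈ vis q (0 + q b) w' := pos_mem_vis q (0 + q b) w'
      rw [hw1'] at h5
      simp only [vis, List.nodup_cons] at h5
      rw [hx0] at h9
      exact h5.1 h9
    have h9 : tot φ q ξ 0 w1 ≤ S w1.length x ξ := le_best φ q _ _ ξ w1 rfl ⟨rfl, h5⟩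
    have h10 : S w1.length x ξ < G w1.length x + ε * n := by
      by_contra hcon
      push Not at hcon
      apply hn
      simp only [hBad, Set.mem_iUnion]
      exact ⟨w1.length, Finset.mem_Icc.2 ⟨hk1, h4⟩, x, hR n w1 h4, hcon⟩
    have h11 : G w1.length x ≤ w1.length * Ast := by
      refine le_trans ?_ (hA w1.length x hk1 hx0 ⟨w1, rfl, rfl⟩)
      have hi : ∀ Q : List A → Prop, Integrable (fun ω => best φ q w1.length Q (fld X ω)) P :=
        fun Q => Integrable.of_bound ((meas_best φ q hm _ Q).comp h.mfld).aestronglyMeasurable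
          (C * w1.length) (Filter.Eventually.of_forall fun ω => best_abs φ q hC.le hφ _ Q _)
      apply integral_mono (hi _) (hi _)
      intro ω'
      exact best_mono φ q _ _ _ _ (fun w hw => hw.1) ⟨w1, rfl, rfl, h5⟩
    have h12 : (w1.length : ℝ) * Ast ≤ w1.length * max Ast W :=
      mul_le_mul_of_nonneg_left hmx1 (Nat.cast_nonneg _)
    linarith

/-- The best mean payoff converges almost surely to a constant, when some action moves. -/
theorem main {a0 : A} (ha0 : q a0 ≠ 0) :
    ∃ v : ℝ, ∀ z : V, ∀ᵐ ω ∂P, Tendsto (fun n : ℕ => vl φ q n (sh z (fld X ω)) / (n : ℝ)) atTop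
      (𝓝 v) := by
  classical
  -- the cycle constant
  set SW : Set ℝ := {w | w = -C ∨ ∃ c : List A, c ≠ [] ∧ pos q 0 c = 0 ∧
    P {ω | c.length * w ≤ tot φ q (fld X ω) 0 c} ≠ 0} with hSW
  have hSWb : ∀ w ∈ SW, w ≤ C := by
    rintro w (hw | ⟨c, hc, -, hp⟩)
    · rw [hw]; linarith
    · by_contra hcon
      push Not at hcon
      apply hp
      have : {ω | c.length * w ≤ tot φ q (fld X ω) 0 c} = ∅ := by
        ext ω
        simp only [Set.mem_ofPred_eq, Set.mem_empty_iff_false, iff_false, not_le]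
        have h1 := (abs_le.1 (tot_abs φ q hφ (fld X ω) 0 c)).2
        have h2 : (0 : ℝ) < c.length := by exact_mod_cast List.length_pos_iff.2 hc
        nlinarith
      rw [this, measure_empty]
  have hSWbd : BddAbove SW := ⟨C, hSWb⟩
  have hSWne : SW.Nonempty := ⟨-C, Or.inl rfl⟩
  set W := sSup SW with hWdef
  have hWC : W ≤ C := csSup_le hSWne hSWb
  have hlowW : ∀ w < W, Low φ q P X w := by
    intro w hw
    by_cases hwC : w ≤ -C
    · exact low_triv h φ q hm hC hφ hwC
    · push Not at hwC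
      obtain ⟨w', hw', hlt⟩ := exists_lt_of_lt_csSup hSWne hw
      rcases hw' with hw' | ⟨c, hc, hcl, hp⟩
      · exact absurd (hlt.trans_le (hw'.le)) (not_lt.2 hwC.le)
      · have h1 : |w'| ≤ C := abs_le.2 ⟨by linarith, hSWb w' (Or.inr ⟨c, hc, hcl, hp⟩)⟩
        intro z
        filter_upwards [low_cyc h φ q hm hC hφ hc hcl h1 hp ha0 z] with ω hω
        obtain ⟨K, hK⟩ := hω
        refine ⟨K, fun n => ?_⟩
        have h2 : (n : ℝ) * w ≤ n * w' := mul_le_mul_of_nonneg_left hlt.le (Nat.cast_nonneg n)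
        linarith [hK n]
  -- no closed word beats `W`
  have hW : ∀ᵐ ω ∂P, ∀ (y : V) (c : List A), c ≠ [] → pos q y c = y →
      tot φ q (fld X ω) y c ≤ c.length * W := by
    rw [ae_all_iff]
    intro y
    rw [ae_all_iff]
    intro c
    by_cases hc : c = []
    · exact Filter.Eventually.of_forall fun ω h1 => absurd hc h1
    by_cases hcl : pos q y c = y
    swap
    · exact Filter.Eventually.of_forall fun ω _ h2 => absurd h2 hcl
    have hcl0 : pos q 0 c = 0 := by
      rw [pos_eq] at hcl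
      exact add_eq_left.1 hcl
    have hl : (0 : ℝ) < c.length := by exact_mod_cast List.length_pos_iff.2 hc
    have h0 : ∀ j : ℕ, ∀ᵐ ω ∂P, tot φ q (fld X ω) y c < c.length * (W + 1 / ((j : ℝ) + 1)) := by
      intro j
      have h1 : P {ω | c.length * (W + 1 / ((j : ℝ) + 1)) ≤ tot φ q (fld X ω) 0 c} = 0 := by
        by_contra hcon
        have h2 : W + 1 / ((j : ℝ) + 1) ∈ SW := Or.inr ⟨c, hc, hcl0, hcon⟩
        have h3 := le_csSup hSWbd h2
        have h4 : (0 : ℝ) < 1 / ((j : ℝ) + 1) := by positivity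
        linarith
      have hset : MeasurableSet {ξ : V → E | c.length * (W + 1 / ((j : ℝ) + 1)) ≤
          tot φ q ξ 0 c} := measurableSet_le measurable_const (meas_tot φ q hm 0 c)
      have h2 := (h.shift y).measure_mem_eq hset
      have h3 : P {ω | c.length * (W + 1 / ((j : ℝ) + 1)) ≤ tot φ q (fld X ω) y c} = 0 := by
        have e1 : {ω | c.length * (W + 1 / ((j : ℝ) + 1)) ≤ tot φ q (fld X ω) y c} =
            (fun ω => sh y (fld X ω)) ⁻¹' {ξ : V → E | c.length * (W + 1 / ((j : ℝ) + 1)) ≤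
              tot φ q ξ 0 c} := by
          ext ω
          simp only [Set.mem_preimage, Set.mem_ofPred_eq]
          rw [tot_sh, add_zero]
        rw [e1, h2]
        exact h1
      rw [ae_iff]
      convert h3 using 3
      simp only [not_lt]
    rw [← ae_all_iff] at h0
    filter_upwards [h0] with ω hω _ _
    have h5 : Tendsto (fun j : ℕ => (c.length : ℝ) * (W + 1 / ((j : ℝ) + 1))) atTop
        (𝓝 (c.length * (W + 0))) :=
      (tendsto_one_div_add_atTop_nhds_zero_nat.const_add W).const_mul _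
    rw [add_zero] at h5
    exact ge_of_tendsto' h5 fun j => (hω j).le
  -- the chain constant
  set SA : Set ℝ := {r | ∃ (k : ℕ) (x : V), 1 ≤ k ∧ x ≠ 0 ∧
    (∃ w : List A, w.length = k ∧ pos q 0 w = x) ∧
    r = (∫ ω, best φ q k (fun w => pos q 0 w = x) (fld X ω) ∂P) / k} with hSA
  have hSAb : ∀ r ∈ SA, r ≤ C := by
    rintro r ⟨k, x, hk, -, -, rfl⟩
    have hk0 : (0 : ℝ) < k := by exact_mod_cast hk
    rw [div_le_iff₀ hk0]
    have hi : Integrable (fun ω => best φ q k (fun w => pos q 0 w = x) (fld X ω)) P :=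
      Integrable.of_bound ((meas_best φ q hm _ _).comp h.mfld).aestronglyMeasurable
        (C * k) (Filter.Eventually.of_forall fun ω => best_abs φ q hC.le hφ _ _ _)
    calc ∫ ω, best φ q k (fun w => pos q 0 w = x) (fld X ω) ∂P ≤ ∫ _ω, C * k ∂P :=
          integral_mono hi (integrable_const _) fun ω =>
            (abs_le.1 (best_abs φ q hC.le hφ k _ (fld X ω))).2
      _ = C * k := by simp
  have hSAbd : BddAbove SA := ⟨C, hSAb⟩
  have hSAne : SA.Nonempty :=
    ⟨_, 1, q a0, le_rfl, ha0, ⟨[a0], rfl, by simp [pos]⟩, rfl⟩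
  set Ast := sSup SA with hAdef
  have hlowA : ∀ a < Ast, Low φ q P X a := by
    intro a ha
    obtain ⟨r, ⟨k, x, hk, hx, hw, hr⟩, hlt⟩ := exists_lt_of_lt_csSup hSAne ha
    exact low_chain h φ q hm hC hφ hk hx hw (by rw [← hr]; exact hlt)
  have hA : ∀ (k : ℕ) (x : V), 1 ≤ k → x ≠ 0 → (∃ w : List A, w.length = k ∧ pos q 0 w = x) →
      ∫ ω, best φ q k (fun w => pos q 0 w = x) (fld X ω) ∂P ≤ k * Ast := by
    intro k x hk hx hw
    have hk0 : (0 : ℝ) < k := by exact_mod_cast hk
    have h1 := le_csSup hSAbd (show _ ∈ SA from ⟨k, x, hk, hx, hw, rfl⟩)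
    rw [div_le_iff₀ hk0] at h1
    linarith
  refine ⟨max Ast W, fun z => ?_⟩
  have hlow : ∀ j : ℕ, ∀ᵐ ω ∂P, ∃ K : ℝ, ∀ n : ℕ,
      n * (max Ast W - 1 / ((j : ℝ) + 1)) - K ≤ vl φ q n (sh z (fld X ω)) := by
    intro j
    have h4 : (0 : ℝ) < 1 / ((j : ℝ) + 1) := by positivity
    rcases le_total Ast W with h1 | h1
    · rw [max_eq_right h1]; exact hlowW _ (by linarith) z
    · rw [max_eq_left h1]; exact hlowA _ (by linarith) z
  have hup : ∀ j : ℕ, ∀ᵐ ω ∂P, ∀ᶠ n : ℕ in atTop, vl φ q n (sh z (fld X ω)) ≤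
      n * (max Ast W + 1 / ((j : ℝ) + 1)) := fun j =>
    upper h φ q hm hC hφ hW hA (by positivity) z
  filter_upwards [ae_all_iff.2 hlow, ae_all_iff.2 hup] with ω hl hu
  rw [Metric.tendsto_atTop']
  intro ε hε
  obtain ⟨j, hj⟩ := exists_nat_one_div_lt (half_pos hε)
  obtain ⟨K, hK⟩ := hl j
  obtain ⟨N1, hN1⟩ := eventually_atTop.1 (hu j)
  obtain ⟨N2, hN2⟩ := exists_nat_gt (2 * |K| / ε)
  refine ⟨max N1 N2, fun n hn => ?_⟩
  have hn1 : N1 ≤ n := (le_max_left _ _).trans hn.le
  have hn2 : N2 ≤ n := (le_max_right _ _).trans hn.le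
  have hnpos : (0 : ℝ) < n := by exact_mod_cast (Nat.zero_le _).trans_lt hn
  rw [Real.dist_eq, abs_lt]
  have h1 := hN1 n hn1
  have h2 := hK n
  have h3 : 2 * |K| / ε < n := hN2.trans_le (by exact_mod_cast hn2)
  rw [div_lt_iff₀ hε] at h3
  have h4 := le_abs_self K
  constructor
  · rw [lt_sub_iff_add_lt, lt_div_iff₀ hnpos]
    nlinarith
  · rw [sub_lt_iff_lt_add, div_lt_iff₀ hnpos]
    nlinarith

end

end Pool.Agent.V5helper96.PG
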