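import Pool.Agent.V5helper96.PG.Conc
import Pool.Agent.V5helper96.PG.Det

/-!
Probabilistic tools for local functions of an i.i.d. field: law of large numbers along a line and
upper tail concentration.
-/

set_option autoImplicit false
set_option linter.unusedSectionVars false

open scoped BigOperators Topology
open MeasureTheory ProbabilityTheory Filter

namespace Pool.Agent.V5helper96.PG

/-- locality -/
def Loc {V E : Type*} (Λ : Finset V) (f : (V → E) → ℝ) : Prop :=
  ∀ ξ η : V → E, (∀ v ∈ Λ, ξ v = η v) → f ξ = f η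

open Classical in
/-- extension of a finite configuration -/
noncomputable def ext {V E : Type*} (Λ : Finset V) (e0 : E) (η : Λ → E) : V → E :=
  fun v => if h : v ∈ Λ then η ⟨v, h⟩ else e0

theorem ext_mem {V E : Type*} (Λ : Finset V) (e0 : E) (η : Λ → E) (v : V) (h : v ∈ Λ) :
    ext Λ e0 η v = η ⟨v, h⟩ := by
  unfold ext; rw [dif_pos h]

theorem meas_ext {V E : Type*} [MeasurableSpace E] (Λ : Finset V) (e0 : E) :
    Measurable (ext Λ e0) := by
  apply measurable_pi_lambda
  intro v
  unfold ext
  by_cases h : v ∈ Λ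
  · simp only [dif_pos h]; exact measurable_pi_apply _
  · simp only [dif_neg h]; exact measurable_const

theorem ext_update {V E : Type*} [DecidableEq V] (Λ : Finset V) (e0 : E) (η : Λ → E) (z : Λ)
    (e : E) : ext Λ e0 (Function.update η z e) = Function.update (ext Λ e0 η) z.1 e := by
  funext v
  by_cases h : v = z.1
  · subst h
    rw [Function.update_self, ext_mem _ _ _ _ z.2, Function.update_self]
  · rw [Function.update_of_ne h]
    by_cases hv : v ∈ Λ
    · rw [ext_mem _ _ _ _ hv, ext_mem _ _ _ _ hv, Function.update_of_ne]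
      intro h'
      exact h (congrArg Subtype.val h')
    · unfold ext
      rw [dif_neg hv, dif_neg hv]

section
variable {Ω V E : Type*} [MeasurableSpace Ω] {P : Measure Ω} [IsProbabilityMeasure P]
  [MeasurableSpace E] [AddCommGroup V]

/-- i.i.d. field -/
structure IID (P : Measure Ω) (X : V → Ω → E) : Prop where
  meas : ∀ v, Measurable (X v)
  ind : iIndepFun X P
  idd : ∀ v, IdentDistrib (X v) (X 0) P P

/-- the field as a random function -/
def fld (X : V → Ω → E) (ω : Ω) : V → E := fun v => X v ω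

variable {X : V → Ω → E}

theorem IID.mfld (h : IID P X) : Measurable (fld X) := measurable_pi_lambda _ h.meas

theorem meas_sh (y : V) : Measurable (sh (E := E) y) :=
  measurable_pi_lambda _ fun v => measurable_pi_apply (y + v)

theorem IID.shift [Countable V] (h : IID P X) (y : V) :
    IdentDistrib (fun ω => sh y (fld X ω)) (fun ω => fld X ω) P P :=
  IdentDistrib.pi (X := fun v => X (y + v)) (Y := X)
    (fun v => (h.idd (y + v)).trans (h.idd v).symm)
    (h.ind.precomp (add_right_injective y)) h.ind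

theorem sh_sh (y z : V) (ξ : V → E) : sh y (sh z ξ) = sh (z + y) ξ := by
  funext v; unfold sh; rw [add_assoc]

theorem Loc.shift [DecidableEq V] {Λ : Finset V} {f : (V → E) → ℝ} (h : Loc Λ f) (y : V) :
    Loc (Λ.image fun v => y + v) fun ξ => f (sh y ξ) := by
  intro ξ η hh
  apply h
  intro v hv
  exact hh _ (Finset.mem_image_of_mem _ hv)

theorem IID.indep (h : IID P X) [Nonempty E] {Λ Λ' : Finset V} {f g : (V → E) → ℝ}
    (hf : Measurable f) (hg : Measurable g) (hlf : Loc Λ f) (hlg : Loc Λ' g)
    (hd : Disjoint Λ Λ') : IndepFun (fun ω => f (fld X ω)) (fun ω => g (fld X ω)) P := by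
  obtain ⟨e0⟩ := ‹Nonempty E›
  have h1 := h.ind.indepFun_finset Λ Λ' hd h.meas
  have h2 := h1.comp (φ := fun η => f (ext Λ e0 η)) (ψ := fun η => g (ext Λ' e0 η))
    (hf.comp (meas_ext Λ e0)) (hg.comp (meas_ext Λ' e0))
  have e1 : (fun ω => f (fld X ω)) =
      (fun η => f (ext Λ e0 η)) ∘ fun ω => fun i : Λ => X i ω := by
    funext ω
    apply hlf
    intro v hv
    rw [ext_mem _ _ _ _ hv]; rfl
  have e2 : (fun ω => g (fld X ω)) =
      (fun η => g (ext Λ' e0 η)) ∘ fun ω => fun i : Λ' => X i ω := by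
    funext ω
    apply hlg
    intro v hv
    rw [ext_mem _ _ _ _ hv]; rfl
  rw [e1, e2]
  exact h2

/-- separation along a line -/
theorem sep [IsAddTorsionFree V] [DecidableEq V] (Λ : Finset V) {x : V} (hx : x ≠ 0) :
    ∃ M : ℕ, 0 < M ∧ ∀ m : ℕ, M ≤ m → ∀ z : V,
      Disjoint (Λ.image fun v => z + v) (Λ.image fun v => z + m • x + v) := by
  have hfin : {m : ℕ | m • x ∈ (Λ ×ˢ Λ).image fun p => p.1 - p.2}.Finite := by
    apply Set.Finite.preimage (s := (((Λ ×ˢ Λ).image fun p => p.1 - p.2 : Finset V) : Set V))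
    · intro m _ m' _ h
      have h' : (m : ℤ) • x = (m' : ℤ) • x := by
        rw [natCast_zsmul, natCast_zsmul]; exact h
      exact_mod_cast smul_left_injective ℤ hx h'
    · exact Finset.finite_toSet _
  obtain ⟨M, hM⟩ := hfin.bddAbove
  refine ⟨M + 1, Nat.succ_pos M, fun m hm z => ?_⟩
  rw [Finset.disjoint_left]
  intro v hv hv'
  obtain ⟨a, ha, rfl⟩ := Finset.mem_image.1 hv
  obtain ⟨b, hb, hab⟩ := Finset.mem_image.1 hv'
  have h1 : m • x = a - b := by
    have : z + m • x + b = z + a := hab
    have h2 : m • x + b = a := by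
      have h3 : z + (m • x + b) = z + a := by rw [← add_assoc]; exact this
      exact add_left_cancel h3
    rw [← h2]; abel
  have h2 : m ∈ {m : ℕ | m • x ∈ (Λ ×ˢ Λ).image fun p => p.1 - p.2} := by
    show m • x ∈ (Λ ×ˢ Λ).image fun p => p.1 - p.2
    rw [h1]
    exact Finset.mem_image.2 ⟨(a, b), Finset.mem_product.2 ⟨ha, hb⟩, rfl⟩
  have := hM h2
  omega

/-- law of large numbers along a line for local functions -/
theorem IID.slln [Countable V] [IsAddTorsionFree V] [Nonempty E] (h : IID P X)
    {f : (V → E) → ℝ} (hf : Measurable f) {B : ℝ} (hB : ∀ ξ, |f ξ| ≤ B) {Λ : Finset V}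
    (hloc : Loc Λ f) {x : V} (hx : x ≠ 0) (z : V) :
    ∃ M : ℕ, 0 < M ∧ ∀ᵐ ω ∂P, Tendsto (fun n : ℕ =>
      (∑ i ∈ Finset.range (n * M), f (sh (i • x) (sh z (fld X ω)))) / ((n : ℝ) * M)) atTop
      (𝓝 (∫ ω, f (fld X ω) ∂P)) := by
  classical
  obtain ⟨M, hM, hsep⟩ := sep Λ hx
  refine ⟨M, hM, ?_⟩
  have hrow : ∀ r : ℕ, ∀ᵐ ω ∂P, Tendsto (fun n : ℕ =>
      (∑ i ∈ Finset.range n, f (sh ((i * M + r) • x) (sh z (fld X ω)))) / (n : ℝ)) atTop
      (𝓝 (∫ ω, f (fld X ω) ∂P)) := by
    intro r
    set Y : ℕ → Ω → ℝ := fun i ω => f (sh (z + (i * M + r) • x) (fld X ω)) with hY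
    have hYm : ∀ i, Measurable (Y i) := fun i => hf.comp ((meas_sh _).comp h.mfld)
    have hid0 : ∀ i, IdentDistrib (Y i) (fun ω => f (fld X ω)) P P := fun i =>
      (h.shift _).comp hf
    have hid : ∀ i, IdentDistrib (Y i) (Y 0) P P := fun i => (hid0 i).trans (hid0 0).symm
    have hint : Integrable (Y 0) P :=
      Integrable.of_bound (hYm 0).aestronglyMeasurable B (Filter.Eventually.of_forall fun ω => hB _)
    have hlt : ∀ i j : ℕ, i < j → IndepFun (Y i) (Y j) P := by
      intro i j hij
      apply h.indep (hf.comp (meas_sh _)) (hf.comp (meas_sh _)) (hloc.shift _) (hloc.shift _)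
      have h1 := hsep ((j - i) * M) (Nat.le_mul_of_pos_left M (Nat.sub_pos_of_lt hij))
        (z + (i * M + r) • x)
      have e1 : z + (i * M + r) • x + ((j - i) * M) • x = z + (j * M + r) • x := by
        rw [add_assoc, ← add_smul]
        congr 2
        obtain ⟨t, rfl⟩ := Nat.exists_eq_add_of_lt hij
        have : i + t + 1 - i = t + 1 := by omega
        rw [this]; ring
      rw [e1] at h1
      exact h1
    have hpair : Pairwise (Function.onFun (fun f g => IndepFun f g P) Y) := by
      intro i j hij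
      rcases lt_or_gt_of_ne hij with h1 | h1
      · exact hlt i j h1
      · exact (hlt j i h1).symm
    have h2 := strong_law_ae_real Y hint hpair hid
    have h3 : P[Y 0] = ∫ ω, f (fld X ω) ∂P := (hid0 0).integral_eq
    rw [h3] at h2
    filter_upwards [h2] with ω hω
    simp only [sh_sh]
    exact hω
  have hall : ∀ᵐ ω ∂P, ∀ r : ℕ, Tendsto (fun n : ℕ =>
      (∑ i ∈ Finset.range n, f (sh ((i * M + r) • x) (sh z (fld X ω)))) / (n : ℝ)) atTop
      (𝓝 (∫ ω, f (fld X ω) ∂P)) := ae_all_iff.2 hrow
  filter_upwards [hall] with ω hω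
  have hsum : ∀ n : ℕ, ∑ i ∈ Finset.range (n * M), f (sh (i • x) (sh z (fld X ω))) =
      ∑ r ∈ Finset.range M, ∑ i ∈ Finset.range n, f (sh ((i * M + r) • x) (sh z (fld X ω))) := by
    intro n
    induction n with
    | zero => simp
    | succ n ih =>
      rw [add_mul, one_mul, Finset.sum_range_add, ih, ← Finset.sum_add_distrib]
      refine Finset.sum_congr rfl fun r _ => ?_
      rw [Finset.sum_range_succ]
  have h1 : Tendsto (fun n : ℕ => ∑ r ∈ Finset.range M,
      (∑ i ∈ Finset.range n, f (sh ((i * M + r) • x) (sh z (fld X ω)))) / (n : ℝ)) atTop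
      (𝓝 (∑ _r ∈ Finset.range M, ∫ ω, f (fld X ω) ∂P)) :=
    tendsto_finsetSum _ fun r _ => hω r
  have h2 := h1.div_const (M : ℝ)
  have hM' : (M : ℝ) ≠ 0 := by positivity
  rw [Finset.sum_const, Finset.card_range, nsmul_eq_mul, mul_div_cancel_left₀ _ hM'] at h2
  refine h2.congr fun n => ?_
  rw [hsum, ← Finset.sum_div, div_div]

/-- concentration for local functions -/
theorem IID.conc [Nonempty E] [DecidableEq V] (h : IID P X) {f : (V → E) → ℝ}
    (hf : Measurable f) {B : ℝ}
    (hB : ∀ ξ, |f ξ| ≤ B) {Λ : Finset V} (hloc : Loc Λ f) {K : ℝ} (hK : 0 < K)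
    (hd : ∀ ξ τ : V → E, ∑ v ∈ Λ, (max (f ξ - f (Function.update ξ v (τ v))) 0) ^ 2 ≤ K ^ 2)
    (t : ℝ) :
    P.real {ω | (∫ ω', f (fld X ω') ∂P) + t ≤ f (fld X ω)} ≤ 2 * Real.exp (-t / K) := by
  obtain ⟨e0⟩ := ‹Nonempty E›
  set R : Ω → Λ → E := fun ω v => X v ω with hR
  have hRm : Measurable R := measurable_pi_lambda _ fun v => h.meas v
  have hν : IsProbabilityMeasure (P.map (X 0)) :=
    Measure.isProbabilityMeasure_map (h.meas 0).aemeasurable
  have hlaw : P.map R = PP Λ (P.map (X 0)) := by
    have h1 := (iIndepFun_iff_map_fun_eq_pi_map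
      (f := fun v : Λ => X v) (μ := P) (fun v => (h.meas v).aemeasurable)).1
      (h.ind.precomp Subtype.val_injective)
    show P.map (fun ω (v : Λ) => X v ω) = _
    rw [h1]
    unfold PP
    congr 1
    funext v
    exact (h.idd v).map_eq
  set F : (Λ → E) → ℝ := fun η => f (ext Λ e0 η) with hF
  have hFm : Measurable F := hf.comp (meas_ext Λ e0)
  have hFR : ∀ ω, F (R ω) = f (fld X ω) := by
    intro ω
    apply hloc
    intro v hv
    rw [ext_mem _ _ _ _ hv]; rfl
  have key := conc_up (μ := P.map (X 0)) F hFm B (fun η => hB _) K hK (by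
    intro η τ
    refine le_trans (le_of_eq ?_) (hd (ext Λ e0 η) (ext Λ e0 τ))
    rw [← Finset.sum_coe_sort Λ (fun v => (max (f (ext Λ e0 η) -
      f (Function.update (ext Λ e0 η) v (ext Λ e0 τ v))) 0) ^ 2)]
    refine Finset.sum_congr rfl fun z _ => ?_
    simp only [hF]
    rw [ext_update, ext_mem Λ e0 τ z.1 z.2]) t
  rw [← hlaw] at key
  have e1 : ∫ η, F η ∂(P.map R) = ∫ ω, f (fld X ω) ∂P := by
    rw [integral_map hRm.aemeasurable hFm.aestronglyMeasurable]
    exact integral_congr_ae (Filter.Eventually.of_forall hFR)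
  rw [e1] at key
  rw [map_measureReal_apply hRm (measurableSet_le measurable_const hFm)] at key
  have e2 : R ⁻¹' {η | (∫ ω', f (fld X ω') ∂P) + t ≤ F η} =
      {ω | (∫ ω', f (fld X ω') ∂P) + t ≤ f (fld X ω)} := by
    ext ω
    simp only [Set.mem_preimage, Set.mem_ofPred_eq, hFR]
  rw [e2] at key
  exact key

end

/-! ### Measurability and locality of `best` -/

section
variable {V E A : Type*} [AddCommGroup V] [MeasurableSpace E] (φ : A → E → ℝ) (q : A → V)

theorem meas_tot (hm : ∀ a, Measurable (φ a)) (z : V) (w : List A) :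
    Measurable fun ξ : V → E => tot φ q ξ z w := by
  induction w generalizing z with
  | nil => simp only [tot]; exact measurable_const
  | cons a w ih => simp only [tot]; exact ((hm a).comp (measurable_pi_apply z)).add (ih _)

theorem meas_best [Finite A] (hm : ∀ a, Measurable (φ a)) (k : ℕ) (Q : List A → Prop) :
    Measurable (best (V := V) φ q k Q) := by
  unfold best
  exact Measurable.iSup fun w => meas_tot φ q hm 0 w.1

theorem loc_tot (w : List A) [DecidableEq V] :
    Loc (act q 0 w).toFinset fun ξ : V → E => tot φ q ξ 0 w := by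
  intro ξ η hh
  exact tot_congr φ q 0 w fun v hv => hh v (List.mem_toFinset.2 hv)

theorem loc_best [Finite A] (k : ℕ) : ∃ Λ : Finset V, ∀ Q : List A → Prop,
    Loc Λ (best (E := E) φ q k Q) := by
  classical
  have : Finite {w : List A // w.length = k} := by
    have := Fintype.ofFinite A
    exact (inferInstance : Finite (List.Vector A k))
  have hfin : (⋃ w : {w : List A // w.length = k}, {v | v ∈ act q 0 w.1}).Finite :=
    Set.finite_iUnion fun w => List.finite_toSet _
  refine ⟨hfin.toFinset, fun Q ξ η hh => ?_⟩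
  unfold best
  congr 1
  funext w
  refine tot_congr φ q 0 w.1 fun v hv => hh v ?_
  rw [Set.Finite.mem_toFinset, Set.mem_iUnion]
  exact ⟨⟨w.1, w.2.1⟩, hv⟩

/-- one-sided bounded differences for the best self-avoiding word -/
theorem best_diff [Finite A] [DecidableEq V] {C : ℝ} (hC : 0 ≤ C) (hφ : ∀ a e, |φ a e| ≤ C)
    (k : ℕ) (Q : List A → Prop) (hQ : ∀ w, Q w → (act q 0 w).Nodup) (Λ : Finset V)
    (ξ τ : V → E) :
    ∑ v ∈ Λ, (max (best φ q k Q ξ - best φ q k Q (Function.update ξ v (τ v))) 0) ^ 2 ≤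
      (2 * C * Real.sqrt k) ^ 2 := by
  have e0 : (2 * C * Real.sqrt k) ^ 2 = (2 * C) ^ 2 * k := by
    rw [mul_pow, Real.sq_sqrt (Nat.cast_nonneg k)]
  rw [e0]
  by_cases h : ∃ w : List A, w.length = k ∧ Q w
  · obtain ⟨w, h1, h2, h3⟩ := best_eq φ q k Q ξ h
    have hb : ∀ v ∈ Λ, (max (best φ q k Q ξ - best φ q k Q (Function.update ξ v (τ v))) 0) ^ 2 ≤
        if v ∈ act q 0 w then (2 * C) ^ 2 else 0 := by
      intro v _
      have h4 := tot_update φ q hφ ξ 0 w (hQ w h2) v (τ v)
      have h5 := le_best φ q k Q (Function.update ξ v (τ v)) w h1 h2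
      rw [← h3]
      by_cases hv : v ∈ act q 0 w
      · rw [if_pos hv] at h4 ⊢
        apply pow_le_pow_left₀ (le_max_right _ _)
        exact max_le (by linarith) (by linarith)
      · rw [if_neg hv] at h4 ⊢
        have : max (tot φ q ξ 0 w - best φ q k Q (Function.update ξ v (τ v))) 0 = 0 :=
          max_eq_right (by linarith)
        rw [this]; norm_num
    refine (Finset.sum_le_sum hb).trans ?_
    rw [← Finset.sum_filter, Finset.sum_const, nsmul_eq_mul, mul_comm]
    apply mul_le_mul_of_nonneg_left _ (sq_nonneg _)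
    have h6 : (Λ.filter fun v => v ∈ act q 0 w).card ≤ k := by
      calc (Λ.filter fun v => v ∈ act q 0 w).card ≤ (act q 0 w).toFinset.card := by
            apply Finset.card_le_card
            intro v hv
            rw [List.mem_toFinset]
            exact (Finset.mem_filter.1 hv).2
        _ ≤ (act q 0 w).length := List.toFinset_card_le _
        _ = k := by rw [act_length, h1]
    exact_mod_cast h6
  · have : IsEmpty {w : List A // w.length = k ∧ Q w} := ⟨fun w => h ⟨w.1, w.2⟩⟩
    have hz : ∀ ζ : V → E, best φ q k Q ζ = 0 := fun ζ => by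
      unfold best; exact Real.iSup_of_isEmpty _
    simp only [hz, sub_zero, max_self]
    simp only [ne_eq, OfNat.ofNat_ne_zero, not_false_eq_true, zero_pow, Finset.sum_const_zero]
    positivity

/-- end points of words: the counts determine them -/
theorem ends [Fintype A] (n : ℕ) : ∃ R : Finset V, (R.card : ℝ) ≤ ((n : ℝ) + 1) ^ Fintype.card A ∧
    ∀ w : List A, w.length ≤ n → pos q 0 w ∈ R := by
  classical
  refine ⟨Finset.univ.image fun c : A → Fin (n + 1) => ∑ a, (c a : ℕ) • q a, ?_, ?_⟩
  · have h1 : (Finset.univ.image fun c : A → Fin (n + 1) => ∑ a, (c a : ℕ) • q a).card ≤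
        (n + 1) ^ Fintype.card A := by
      refine Finset.card_image_le.trans ?_
      rw [Finset.card_univ, Fintype.card_fun, Fintype.card_fin]
    exact_mod_cast h1
  · intro w hw
    have key : ∀ (w : List A) (z : V), pos q z w = z + ∑ a, (w.count a) • q a := by
      intro w
      induction w with
      | nil => intro z; simp [pos]
      | cons b w ih =>
        intro z
        simp only [pos]
        rw [ih]
        simp only [List.count_cons, add_smul, Finset.sum_add_distrib]
        have : ∑ a, (if (b == a) = true then 1 else 0) • q a = q b := by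
          rw [Finset.sum_eq_single b]
          · simp
          · intro a _ ha
            simp [Ne.symm ha]
          · intro hb; exact absurd (Finset.mem_univ b) hb
        rw [this]; abel
    rw [key w 0, zero_add]
    refine Finset.mem_image.2 ⟨fun a => ⟨w.count a, ?_⟩, Finset.mem_univ _, rfl⟩
    exact Nat.lt_succ_of_le ((List.count_le_length).trans hw)

end

end Pool.Agent.V5helper96.PG
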